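import Pool.Agent.Lib.MP_39df03_lc.Main

/-!
# MP_39df03_lc, Q1: the answer is yes

There is a hyperarithmetic class `K` of computable structures, in a computable relational
language, whose isomorphism relation is not `Δ¹₁` and is not complete (under hyperarithmetic
reducibility) among isomorphism relations on hyperarithmetic classes of computable structures.
-/

open Pool.MP39df03

theorem Pool.Agent.Results.MP_39df03_lc.IncompleteIsoClass.result :
    ∃ (ar : ℕ → ℕ) (K : Set (Str ar)),
      HypClass K ∧ ¬ Delta11Rel (isoRel K) ∧ ¬ CompleteIso K :=
  Pool.MP39df03.main
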